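import Pool.Agent.Lib.MP_c86c76_al.GL.Five
import Pool.Agent.Lib.MP_c86c76_al.C.FiveA
import Pool.Agent.Lib.MP_c86c76_al.C.Out5
import Pool.Agent.Lib.MP_c86c76_al.Bi.Arc
import Pool.Agent.Lib.MP_c86c76_al.Bi.Ch
import Pool.Agent.Lib.MP_c86c76_al.Bi.Cn
import Pool.Agent.Lib.MP_c86c76_al.Bi.Col
import Pool.Agent.Lib.MP_c86c76_al.Bi.Ex
import Pool.Agent.Lib.MP_c86c76_al.Bi.Fin
import Pool.Agent.Lib.MP_c86c76_al.Bi.Gam
import Pool.Agent.Lib.MP_c86c76_al.Bi.Gap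
import Pool.Agent.Lib.MP_c86c76_al.Bi.Hn
import Pool.Agent.Lib.MP_c86c76_al.Bi.Ker
import Pool.Agent.Lib.MP_c86c76_al.Bi.Let
import Pool.Agent.Lib.MP_c86c76_al.Bi.Om
import Pool.Agent.Lib.MP_c86c76_al.Bi.One
import Pool.Agent.Lib.MP_c86c76_al.Bi.P1
import Pool.Agent.Lib.MP_c86c76_al.Bi.P2
import Pool.Agent.Lib.MP_c86c76_al.Bi.Pin
import Pool.Agent.Lib.MP_c86c76_al.Bi.Rel
import Pool.Agent.Lib.MP_c86c76_al.Bi.Sh
import Pool.Agent.Lib.MP_c86c76_al.Bi.Sl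
import Pool.Agent.Lib.MP_c86c76_al.Bi.Sp
import Pool.Agent.Lib.MP_c86c76_al.Bi.Tau
import Pool.Agent.Lib.MP_c86c76_al.Bi.Up

/-!
The base statement gives fixed points for the stabiliser of the boundary word in genus five.
-/

set_option autoImplicit false

namespace Pool.Agent.MT

open Pool.Agent.MI

theorem closed5 : Closed5 := by
  obtain ⟨κ, g, M, h⟩ := MQ.M5.model5
  exact ⟨_, h, MC.fiveA _ κ g M⟩

theorem triv5 : Triv5 := fun φ e => by
  have u := upSt chSt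
  have g := gapSt chSt u
  have o := omSt chSt tauSt
  have a := arcSt chSt tauSt o relSt
  have s := shSt cnSt chSt g
  have n := oneSt cnSt (letSt cnSt) u g relSt a s (spSt cnSt u g exSt s)
  exact asm_one relSt a (gamSt (colSt hnSt)) (finSt chSt relSt a s (colSt hnSt)
    (p1St cnSt relSt a s n (pinSt cnSt hnSt)) (p2St cnSt (letSt cnSt) chSt relSt a s n))
    (kerSt chSt tauSt (slSt tauSt) o) (h := 4) (by omega) φ.2 e

theorem fhB (hb : BaseB) : FH (St 5) := fh5 hb closed5 triv5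

end Pool.Agent.MT
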