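import Pool.Agent.Lib.MP_c86c76_al.GL.Main
import Pool.Agent.Lib.MP_c86c76_al.Lo.All

/-!
The base statement gives the relative property for the pushes of the foot and the local lemma.
-/

set_option autoImplicit false

namespace Pool.Agent.ML

open Pool.Agent.MB Pool.Agent.MG Pool.Agent.MT
open Pool.Agent.MW (Gam)

theorem chi4 (χ : MW.Gam 4 →* Multiplicative ℂ) (x : MW.Gam 4) : χ x = 1 := by
  have t : ∀ k, k < 7 → χ (tG4.t (k + 6)) = 1 := fun k hk => by
    have e : tG4.t (k + 6) = frG 3 (frG 2 (tG2.t k)) := Subtype.ext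
      ((stdB_is tG4_std (by omega)).eq (stdB_is tG2_std hk).fr.fr)
    have := Abelianization.commutator_subset_ker (χ.comp ((frG 3).comp (frG 2))) (pow_ten (tG2.t k))
    rw [MonoidHom.mem_ker, map_pow] at this
    rw [e]
    exact (pow_eq_one_iff.1 this).resolve_right (by omega)
  have b : ∀ {i j : ℕ}, same _ tG4.L [(i, true), (j, true), (i, true)]
      [(j, true), (i, true), (j, true)] = true → χ (tG4.t i) = χ (tG4.t j) :=
    fun h => braid_eq χ _ (tG4.same h)
  have e5 := (b (i := 5) (j := 7) (by decide +kernel)).trans (t 1 (by omega))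
  have e4 := (b (i := 4) (j := 5) (by decide +kernel)).trans e5
  have e3 := (b (i := 3) (j := 4) (by decide +kernel)).trans e4
  have e2 := (b (i := 2) (j := 4) (by decide +kernel)).trans e4
  have e1 := (b (i := 1) (j := 2) (by decide +kernel)).trans e2
  have e0 := (b (i := 0) (j := 1) (by decide +kernel)).trans e1
  have : χ.ker = ⊤ := gam_ind _ fun k hk φ h => by
    rw [show φ = tG4.t k from Subtype.ext (h.eq (stdB_is tG4_std hk))]
    obtain rfl | rfl | rfl | rfl | rfl | rfl | j :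
      k = 0 ∨ k = 1 ∨ k = 2 ∨ k = 3 ∨ k = 4 ∨ k = 5 ∨ 6 ≤ k := by omega
    exacts [e0, e1, e2, e3, e4, e5, by
      obtain ⟨i, rfl⟩ := Nat.exists_eq_add_of_le' j
      exact t i (by omega)]
  exact (this ▸ Subgroup.mem_top x : x ∈ χ.ker)

theorem wrA (hb : BaseA) : WR (PP 4) := wr42 hb chi4

theorem locA (hb : BaseA) :
    (∀ g, 5 ≤ g → Loc (MK.Fo g).subtype) ∧ Loc MK.Fi.subtype :=
  ⟨fun _ => locO (wrA hb), locI (wrA hb)⟩

end Pool.Agent.ML
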