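import Pool.Agent.Lib.MP_c86c76_al.GL.Fin
import Pool.Agent.Lib.MP_c86c76_al.Bi.Asm

/-!
The stabiliser of the boundary word in genus five, from the closed group and the inner
automorphisms.
-/

set_option autoImplicit false

namespace Pool.Agent.MT

open Pool.Agent.MB Pool.Agent.MG Pool.Agent.MI Pool.Agent.Lib.MP_c86c76_al
open Pool.Agent.Lib.MP_c8f1ce_al.HN

/-- The set `P` has a fixed point in every action of `G`. -/
def FixIn (G : Type) [Group G] (P : Set G) : Prop :=
  ∀ (H : Type) [NormedAddCommGroup H] [InnerProductSpace ℂ H] [CompleteSpace H]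
    (α : G →* (H ≃ᵃⁱ[ℂ] H)), ∃ x, ∀ p ∈ P, α p x = x

/-- Extensions. -/
theorem AFP.ext {G G' : Type} [Group G] [Group G'] (f : G →* G') (hf : Function.Surjective f)
    (h1 : FixIn G f.ker) (h2 : AFP G') : AFP G := fun H _ _ _ α => by
  have n : ∀ g, ∀ p ∈ (f.ker : Set G), g⁻¹ * p * g ∈ (f.ker : Set G) := fun g p m =>
    f.normal_ker.conj_mem' p m g
  have i := fix_inv (lin α) n
  have : CompleteSpace (fix (lin α) f.ker) := (isClosed_fix _ _).completeSpace_coe
  refine AF.split α _ i ?_ ((ra_of_fix n h1).orth n α)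
  obtain ⟨x, hx⟩ := h1 _ (prj α _ i)
  let β := f.liftOfSurjective hf ⟨prj α _ i, fun c m => AffineIsometryEquiv.ext fun y => by
    rw [← sub_add_cancel y x, act_add, hx c m]
    exact congrArg (· + x) (Subtype.ext ((y - x).2 c m))⟩
  rw [← show β.comp f = prj α _ i from MonoidHom.liftOfRightInverse_comp ..]
  exact AF.comp (h2 _ β) f

/-- The automorphism of the surface group. -/
def toAut (g : ℕ) : St g →* MulAut (Pi1 g) := (MulAut.congr (surfI g)).toMonoidHom.comp (ind _)

theorem toAut_pj {g : ℕ} (φ : St g) (w : FN (2 * g)) :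
    toAut g φ (surfI g (pj _ w)) = surfI g (pj _ (φ.1 w)) := by
  change surfI g (ind _ φ ((surfI g).symm (surfI g (pj _ w)))) = _
  rw [MulEquiv.symm_apply_apply]
  rfl

theorem toMod_index {g : ℕ} (hg : 0 < g) : (toMod g).range.FiniteIndex := by
  obtain ⟨f, -, c, hc⟩ := rwASt (2 * g) g rfl
  have hr : c.r = ev (2 * g) (rW g) := by rw [Ctx.r, hc, Raw_ev]
  have key : ∀ (r : FN (2 * g)) (e : OneRel r ≃* Pi1 g), c.r = r → Uni r →
      (toOut r e).range.FiniteIndex := by
    rintro _ e rfl u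
    refine toOut_index c (fun h => ?_) u e
    have := c.full.2 (⟨0, by omega⟩, true)
    rw [h] at this
    exact List.not_mem_nil this
  exact key _ _ hr (RwB_uni g)

theorem cls_onto (Q : Type) [Group Q] : Function.Surjective (cls Q) :=
  @QuotientGroup.mk'_surjective _ _ _ (inn_normal Q)

theorem toAut_index (h : ℕ) : (toAut (h + 1)).range.FiniteIndex := by
  have := toMod_index h.succ_pos
  have e : (toMod (h + 1)).range.comap (cls _) ≤ (toAut (h + 1)).range := by
    rintro σ ⟨φ, hφ⟩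
    obtain ⟨u, hu⟩ := cls_one.1 (show cls _ (σ * (toAut _ φ)⁻¹) = 1 by
      rw [map_mul, map_inv, ← hφ]
      exact mul_inv_cancel _)
    obtain ⟨u, rfl⟩ := (surfI _).surjective u
    obtain ⟨u, rfl⟩ := QuotientGroup.mk'_surjective _ u
    obtain ⟨p, m, hp⟩ := ex_push h
    obtain ⟨j, -, hj⟩ := push_onto (h := h) ⊤ (p := ⟨p, m.1⟩) hp trivial u
    refine ⟨j * φ, ?_⟩
    rw [map_mul, ← eq_mul_inv_iff_mul_eq, ← hu]
    refine MulEquiv.ext fun x => ?_
    obtain ⟨x, rfl⟩ := (surfI _).surjective x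
    obtain ⟨w, rfl⟩ := QuotientGroup.mk'_surjective _ x
    refine (toAut_pj j w).trans ?_
    rw [MulAut.conj_apply, ← map_inv, ← map_mul, ← map_mul, ← map_inv, ← map_mul, ← map_mul]
    exact congrArg _ (cg_iff.1 (hj w))
  have : ((toMod (h + 1)).range.comap (cls _)).FiniteIndex :=
    ⟨by rw [Subgroup.index_comap_of_surjective _ (cls_onto _)]; exact this.1⟩
  exact Subgroup.finiteIndex_of_le e

theorem chi5 (χ : St 5 →* Multiplicative ℂ) (x : St 5) : χ x = 1 := by
  have t : ∀ k, k < 13 → χ (ML.tS5.t k) = 1 := fun k hk => by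
    rw [← show ML.inS 4 (ML.tG4.t k) = ML.tS5.t k from Subtype.ext
      ((ML.stdB_is ML.tG4_std hk).eq (ML.stdB_is ML.tS5_std (by omega)))]
    exact ML.chi4 (χ.comp (ML.inS 4)) _
  have e : χ (ML.tS5.t 13) = χ (ML.tS5.t 11) :=
    ML.braid_eq χ _ (ML.tS5.same (by decide +kernel))
  have : χ.ker = ⊤ := ML.st_ind _ fun k hk φ h => by
    rw [show φ = ML.tS5.t k from Subtype.ext (h.eq (ML.stdB_is ML.tS5_std hk))]
    obtain j | rfl : k < 13 ∨ k = 13 := by omega
    exacts [t k j, e.trans (t 11 (by omega))]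
  exact (this ▸ Subgroup.mem_top x : x ∈ χ.ker)

/-- The inner automorphisms of the surface group of genus five have a fixed point. -/
def BaseB : Prop := FixIn (MulAut (Pi1 5)) (Set.range MulAut.conj)

/-- A group of outer classes that contains the mapping classes has almost fixed points. -/
def Closed5 : Prop := ∃ L : Subgroup (Out (Pi1 5)), (toMod 5).range ≤ L ∧ AFP L

/-- Trivial action on the surface group. -/
def Triv5 : Prop := ∀ φ : St 5, (∀ w, Cg (ev _ (rW 5)) (φ.1 w) w) →
  φ.1 ∈ Subgroup.zpowers (MulAut.conj (ev (2 * 5) (rW 5)))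

theorem baseB_of (h : ∀ (H : Type) [NormedAddCommGroup H] [InnerProductSpace ℂ H] [CompleteSpace H]
    (α : MulAut (Pi1 5) →* (H ≃ᵃⁱ[ℂ] H)), ∃ y, ∀ w, α (MulAut.conj w) y = y) : BaseB :=
  fun H _ _ _ α => (h H α).imp fun _ => Set.forall_mem_range.2

theorem afp_aut5 (hb : BaseB) (hc : Closed5) : AFP (MulAut (Pi1 5)) := by
  obtain ⟨L, le, hL⟩ := hc
  have := toMod_index (g := 5) (by omega)
  have := Subgroup.finiteIndex_of_le le
  exact AFP.ext (cls _) (cls_onto _) (fun H _ _ _ α =>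
    (hb H α).imp fun _ hx p m => hx p (cls_one.1 m)) (AFP.of_sub L hL)

theorem fh5 (hb : BaseB) (hc : Closed5) (h1 : Triv5) : FH (St 5) := by
  have := toAut_index 4
  have := stab_fg 5
  refine AFP.fh (AFP.pull (toAut 5) (fun c m g => Subtype.ext ?_) chi5 (afp_aut5 hb hc))
  obtain ⟨k, hk⟩ := h1 c fun w => cg_iff.2 ((surfI 5).injective (by
    refine (toAut_pj c w).symm.trans ?_
    rw [show toAut 5 c = 1 from m]
    rfl))
  have : Commute g.1 (MulAut.conj (rr 4)) := MulEquiv.ext fun w => by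
    rw [MulAut.mul_apply, MulAut.mul_apply, MulAut.conj_apply, MulAut.conj_apply, map_mul,
      map_mul, map_inv, show g.1 (rr 4) = rr 4 from g.2]
  have e := this.zpow_right k
  rwa [show MulAut.conj (rr 4) ^ k = c.1 from hk] at e

end Pool.Agent.MT
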