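import Pool.Agent.Lib.MP_c86c76_al.S.Base
import Pool.Agent.Lib.MP_c86c76_al.T.Lam

/-!
The stabiliser of the boundary word and of the first arc acts on the free group of the surface with
the foot of the handle as base point.
-/

set_option autoImplicit false

namespace Pool.Agent.MT

open Pool.Agent.MB Pool.Agent.MG Pool.Agent.Lib.MP_c86c76_al
open FreeGroup hiding map_mul map_inv map_one

/-- The retraction that kills the two new letters. -/
def ro (n : ℕ) : FN (n + 2) →* FN n := lift fun i => io n i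

theorem ro_io (n i : ℕ) : ro n (io (n + 2) i) = io n i := by
  by_cases h : i < n + 2
  · rw [io, dif_pos h, ro, lift_apply_of]
  · rw [Lick_big (by omega), Lick_big (by omega), map_one]

theorem ro_inc {n : ℕ} (y : FN n) : ro n (inc n y) = y :=
  DFunLike.congr_fun (ext_hom ((ro n).comp (inc n)) (MonoidHom.id _) fun i => by
    rw [MonoidHom.comp_apply, MonoidHom.id_apply, ← io_of, inc_io i.2, ro_io]) y

theorem inc_emb {n : ℕ} (y : FN n) : ∃ x, emb n x = inc n y :=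
  ⟨lift (fun i : Fin n => io (n + 1) i) y, DFunLike.congr_fun (ext_hom
    ((emb n).comp (lift fun i : Fin n => io (n + 1) i)) (inc n) fun i => by
      rw [MonoidHom.comp_apply, lift_apply_of, emb_io i.2, ← io_of, inc_io i.2]) y⟩

variable {h : ℕ}

/-- The action on the old letters. -/
def fq (φ : Gam h) : FN (2 * h) →* FN (2 * h) := (ro _).comp (φ.1.toMonoidHom.comp (inc _))

/-- The displacement of the foot. -/
def fu (φ : Gam h) : FN (2 * h) := ro _ (φ.1 (io _ (2 * h + 1)))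

theorem fq_emb (φ : Gam h) (x : FN (2 * h + 1)) :
    ro _ (φ.1 (emb _ x)) = fq φ (ro _ (emb _ x)) := by
  refine DFunLike.congr_fun (ext_hom ((ro _).comp (φ.1.toMonoidHom.comp (emb _)))
    ((fq φ).comp ((ro _).comp (emb _))) fun i => ?_) x
  change ro _ (φ.1 (emb _ _)) = fq φ (ro _ (emb _ _))
  rw [← io_of]
  obtain k | k : (i : ℕ) < 2 * h ∨ (i : ℕ) = 2 * h := by omega
  · rw [emb_io k, ro_io, ← inc_io k]
    rfl
  · have h2 : φ.1 _ = _ := φ.2.2
    simp only [k, emb_e, map_mul, map_inv, h2, ro_io, Lick_big (le_refl (2 * h)), map_one, mul_one,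
      mul_inv_cancel]

theorem fq_mul (φ ψ : Gam h) (y : FN (2 * h)) : fq (φ * ψ) y = fq φ (fq ψ y) := by
  obtain ⟨x, e⟩ := inc_emb y
  change ro _ (φ.1 (ψ.1 (inc _ y))) = fq φ (ro _ (ψ.1 (inc _ y)))
  rw [← e, ← emb_res, fq_emb]

theorem fq_one (y : FN (2 * h)) : fq 1 y = y := ro_inc y

theorem fu_mul (φ ψ : Gam h) : fu (φ * ψ) = fq φ (fu ψ) * fu φ := by
  obtain ⟨w, e, -⟩ := res_e ψ
  change ro _ (φ.1 (ψ.1 _)) = fq φ (ro _ (ψ.1 _)) * _
  rw [e, map_mul, map_mul, fq_emb, map_mul, ro_io, Lick_big (2 * h).le_succ, mul_one, fu]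

/-- The action on the old letters as an automorphism. -/
def fQ (φ : Gam h) : MulAut (FN (2 * h)) := MonoidHom.toMulEquiv (fq φ) (fq φ⁻¹)
  (MonoidHom.ext fun y => (fq_mul _ _ y).symm.trans (by rw [inv_mul_cancel]; exact fq_one y))
  (MonoidHom.ext fun y => (fq_mul _ _ y).symm.trans (by rw [mul_inv_cancel]; exact fq_one y))

theorem inc_rW (h : ℕ) : inc (2 * h) (ev _ (rW h)) = ev (2 * h + 2) (rW h) := by
  rw [ev, Raw_map, ev, RwB_congr _ _ h fun i hi => inc_io hi]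

theorem fq_r (φ : Gam h) : fq φ (ev _ (rW h)) = ev _ (rW h) := by
  have h1 : φ.1 _ = _ := φ.2.1
  have h2 : φ.1 _ = _ := φ.2.2
  have := congrArg (ro _) h1
  simp only [Lick_rW, ← inc_rW, map_mul, map_inv, h2, ro_io, Lick_big (le_refl (2 * h)), ro_inc,
    Lick_big (2 * h).le_succ, one_mul, mul_one, inv_one, mul_inv_cancel] at this
  exact this

/-- The action based at the foot. -/
def ft (h : ℕ) : Gam h →* Cj (ev (2 * h) (rW h)) := MonoidHom.mk'
  (fun φ => ⟨MulAut.conj (fu φ)⁻¹ * fQ φ, Or.inl (isConj_iff.2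
    ⟨(fu φ)⁻¹, congrArg (MulAut.conj (fu φ)⁻¹) (fq_r φ).symm⟩)⟩)
  fun φ ψ => Subtype.ext (MulEquiv.ext fun y => by
    change MulAut.conj _ (fq _ y) = MulAut.conj _ (fq φ (MulAut.conj _ (fq ψ y)))
    rw [MulAut.conj_apply, MulAut.conj_apply, MulAut.conj_apply]
    simp only [fq_mul, fu_mul, map_mul, map_inv]
    group)

theorem ft_apply (φ : Gam h) (y : FN (2 * h)) :
    (ft h φ).1 y = (fu φ)⁻¹ * fq φ y * fu φ := by
  change MulAut.conj _ (fq _ y) = _
  rw [MulAut.conj_apply, inv_inv]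

theorem ft_ex (q : MulAut (FN (2 * h))) (hq : q (ev _ (rW h)) = ev _ (rW h)) :
    ∃ φ, (ft h φ).1 = q := by
  have m : exA _ q ∈ Gam h := ⟨by
    change exA _ q _ = _
    simp only [Lick_rW, ← inc_rW, map_mul, map_inv, exA_new q le_rfl, exA_new q (2 * h).le_succ,
      exA_inc, hq], exA_new q le_rfl⟩
  have u : fu ⟨_, m⟩ = 1 := (congrArg (ro _) (exA_new q (2 * h).le_succ)).trans
    ((ro_io _ _).trans (Lick_big (2 * h).le_succ))
  refine ⟨⟨_, m⟩, MulEquiv.ext fun y => ?_⟩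
  rw [ft_apply, u, inv_one, one_mul, mul_one]
  exact (congrArg (ro _) (exA_inc _ q y)).trans (ro_inc _)

theorem ft_push {p : Gam (h + 1)} {A C : MulAut (FN (2 * (h + 1) + 2))} (hA : IsA _ h A)
    (hC : IsC _ h C) (e : p.1 = C * A⁻¹) : (ft _ p).1 = MulAut.conj (io _ (2 * h)) := by
  have c : ro (2 * (h + 1)) (cc _ h) = io _ (2 * h) := by
    simp only [cc, map_mul, map_inv, ro_io, Lick_big (show 2 * (h + 1) ≤ 2 * h + 2 by omega),
      Lick_big (show 2 * (h + 1) ≤ 2 * h + 3 by omega), inv_one, one_mul]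
  have a : ∀ x, x ≠ 2 * h + 1 → A⁻¹ (io _ x) = io _ x := fun x k =>
    A.symm_apply_eq.2 (hA.2 x k).symm
  have u : fu p = (io _ (2 * h))⁻¹ := by
    rw [fu, e, MulAut.mul_apply, a _ (by omega), show C (io _ (2 * (h + 1) + 1)) = _ from hC.1,
      map_mul, map_inv, c, ro_io, Lick_big (show 2 * (h + 1) ≤ 2 * h + 3 by omega), mul_one]
  refine io_ext fun x => ?_
  by_cases k : x < 2 * (h + 1)
  swap
  · rw [Lick_big (not_lt.1 k), map_one, map_one]
  rw [ft_apply, u, inv_inv, MulAut.conj_apply]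
  congr 2
  change ro _ (p.1 (inc _ _)) = _
  rw [inc_io k, e, MulAut.mul_apply]
  by_cases e1 : x = 2 * h + 1
  · rw [e1, show A⁻¹ (io _ (2 * h + 1)) = io _ (2 * h + 1) * (io _ (2 * h))⁻¹ from
      A.symm_apply_eq.2 (by rw [map_mul, map_inv, hA.1, hA.2 _ (by omega)]; group)]
    simp only [map_mul, map_inv, hC.2.1, hC.2.2.1, c, ro_io]
    group
  rw [a x e1]
  by_cases e0 : x = 2 * h
  · simp only [e0, map_mul, map_inv, hC.2.1, c, ro_io]
    group
  · rw [hC.2.2.2 x e0 e1 (by omega), ro_io]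

theorem ft_onto (ψ : Cj (ev (2 * (h + 1)) (rW (h + 1))))
    (hψ : IsConj (ev _ (rW (h + 1))) (ψ.1 (ev _ (rW (h + 1))))) : ψ ∈ (ft (h + 1)).range := by
  obtain ⟨A, hA⟩ := (((lickSt (2 * (h + 1) + 2)).2.1 h).1 (by omega)).1
  obtain ⟨C, hC⟩ := ((lickSt (2 * (h + 1) + 2)).2.1 h).2 (by omega)
  have fx := (lickSt (2 * (h + 1) + 2)).2.2 (h + 2) rfl
  have m : C * A⁻¹ ∈ Gam (h + 1) := mul_mem
    ⟨fx C ⟨h, Or.inr ⟨by omega, hC⟩⟩, hC.2.2.2 _ (by omega) (by omega) (by omega)⟩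
    (inv_mem ⟨fx A ⟨h, Or.inl ⟨by omega, Or.inl hA⟩⟩, hA.2 _ (by omega)⟩)
  have p := ft_push (p := ⟨_, m⟩) hA hC rfl
  obtain ⟨-, -, c, hc⟩ := rwASt (2 * (h + 1)) (h + 1) rfl
  have hr : c.r = ev _ (rW (h + 1)) := by rw [Ctx.r, hc, Raw_ev]
  let R := (ft (h + 1)).range.map (Cj _).subtype
  have key : ∀ x q, Pr c x q → MulAut.conj x ∈ R := fun x q hx => by
    obtain ⟨σ, s1, s2, -⟩ := (normSt rwBSt _ c).2.1 (h + 1) x q rfl hx
    obtain ⟨φ, e⟩ := ft_ex σ (s1.trans hr)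
    refine ⟨_, ⟨φ * ⟨_, m⟩ * φ⁻¹, rfl⟩, ?_⟩
    rw [map_mul, map_mul, map_inv, map_mul, map_mul, map_inv]
    change (ft _ φ).1 * (ft _ _).1 * (ft _ φ).1⁻¹ = _
    rw [e, p, ← s2]
    ext y
    simp only [MulAut.mul_apply, MulAut.conj_apply, map_mul, map_inv, MulAut.apply_inv_self]
    rfl
  have all : ∀ u, MulAut.conj u ∈ R := fun u => by
    induction u using FreeGroup.induction_on with
    | C1 => rw [map_one]; exact one_mem _
    | of i =>
      obtain ⟨q, e | e⟩ := (normSt rwBSt _ c).2.2 c.D0 (of i) (diaSt _ c).2.1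
        (List.mem_map_of_mem (c.full.2 (i, true)))
      · exact key _ q e
      · exact inv_mem_iff.1 (map_inv MulAut.conj (of i) ▸ key _ q e)
    | inv_of i ih => rw [map_inv]; exact inv_mem ih
    | mul u v hu hv => rw [map_mul]; exact mul_mem hu hv
  obtain ⟨v, hv⟩ := isConj_iff.1 hψ
  obtain ⟨φ, e⟩ := ft_ex (MulAut.conj v⁻¹ * ψ.1) (by
    rw [MulAut.mul_apply, ← hv, MulAut.conj_apply]; group)
  obtain ⟨_, ⟨χ, rfl⟩, e'⟩ := all v
  refine ⟨χ * φ, Subtype.ext ?_⟩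
  rw [map_mul, Subgroup.coe_mul, e, show (ft _ χ).1 = _ from e', map_inv, mul_inv_cancel_left]

theorem cj_index {F : Type} [Group F] {r : F} (H : Subgroup (Cj r))
    (hH : ∀ ψ : Cj r, IsConj r (ψ.1 r) → ψ ∈ H) : H.FiniteIndex := by
  have : Finite (Cj r ⧸ H) := by
    refine Finite.of_injective (fun q => IsConj r (q.out.1 r)) fun p q e => ?_
    rw [← QuotientGroup.out_eq' p, ← QuotientGroup.out_eq' q]
    refine QuotientGroup.eq.2 (hH _ ?_)
    have i : IsConj (p.out.1 r) (q.out.1 r) := by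
      by_cases k : IsConj r (p.out.1 r)
      · exact k.symm.trans (Eq.mp e k)
      · exact (p.out.2.resolve_left k).symm.trans (q.out.2.resolve_left fun k' => k (Eq.mpr e k'))
    simpa using (p.out.1⁻¹ : MulAut F).toMonoidHom.map_isConj i
  exact Subgroup.finiteIndex_of_finite_quotient

theorem ft_ker (h0 : 0 < h) (nf : ∀ φ : Gam h, fu φ = 1 → (∀ y, fq φ y = y) → resG h φ = 1) :
    (ft h).ker ≤ Subgroup.center (Gam h) := fun φ hφ => by
  have e : ∀ y, fq φ y = fu φ * y * (fu φ)⁻¹ := fun y => by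
    have := ft_apply φ y
    rw [show ft h φ = 1 from hφ] at this
    conv_rhs => rw [show y = _ from this]
    group
  obtain ⟨-, -, c, hc⟩ := rwASt (2 * h) h rfl
  have hr : c.r = ev _ (rW h) := by rw [Ctx.r, hc, Raw_ev]
  obtain ⟨k, hk⟩ : fu φ ∈ Subgroup.zpowers (ev _ (rW h)) := by
    refine hr ▸ (cenA _ c _ ?_).resolve_left fun e => ?_
    · rw [hr]
      exact mul_inv_eq_iff_eq_mul.1 ((e _).symm.trans (fq_r φ))
    · exact List.not_mem_nil (e ▸ c.full.2 (⟨0, by omega⟩, true))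
  obtain ⟨E, e1, e2⟩ := res_onto (h := h) (MulAut.conj (sG h ^ k)) (sG h ^ k)
    (by rw [MulAut.conj_apply]; group) rfl
  have s : ro _ (emb (2 * h) (sG h)) = ev _ (rW h) := by
    have := congrArg (ro _) (emb_s h)
    simpa only [Lick_rW, ← inc_rW, map_mul, map_inv, ro_io, Lick_big (le_refl (2 * h)), ro_inc,
      Lick_big (2 * h).le_succ, one_mul, mul_one, inv_one] using this
  have u : fu E = fu φ := by
    rw [fu, e2, map_mul, map_zpow, map_zpow, s, ro_io, Lick_big (2 * h).le_succ, mul_one]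
    exact hk
  have q : ∀ y, fq E y = fq φ y := fun y => by
    obtain ⟨x, ex⟩ := inc_emb y
    change ro _ (E.1 (inc _ y)) = _
    rw [e, ← hk, ← ex, ← emb_res, e1, MulAut.conj_apply]
    simp only [map_mul, map_inv, map_zpow, s, ex, ro_inc]
  have n := nf (E⁻¹ * φ) (by
    rw [fu_mul, ← u, ← fu_mul, inv_mul_cancel, fu, OneMemClass.coe_one, MulAut.one_apply, ro_io,
      Lick_big (2 * h).le_succ]) fun y => by rw [fq_mul, ← q, ← fq_mul, inv_mul_cancel, fq_one]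
  refine lam_ker h (cls_one.2 ⟨sG h ^ k, ?_⟩)
  rw [map_mul, map_inv, inv_mul_eq_one, e1] at n
  exact n

theorem nf4 (φ : Gam 4) (h1 : fu φ = 1) (h2 : ∀ y, fq φ y = y) : resG 4 φ = 1 := by
  obtain ⟨-, ⟨β, hβ, hx⟩, hA⟩ := sp0A C5 8 (rW 4) Tl4 C5_c0
  obtain ⟨s, hs⟩ := (lv5 (fun _ => (1 : PUnit)) (fun _ _ => rfl) fun _ _ => rfl).2.2.2 φ.1 φ.2
  obtain ⟨w, k, q, -, e, e1, e2⟩ := (sp1A C5 8 (rW 4) Tl4 PUnit (fun _ => 1) β C5_c0 C5_c1 hβ.1 hx
    (fun _ _ => rfl) fun w hw => (hA PUnit fun _ => 1).2.1 w (List.all_eq_true.1 C5_trS w hw)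
      rfl).2 _ hs
  have rk : ∀ x, ro 8 (kil 8 x) = ro 8 x := DFunLike.congr_fun (ext_hom ((ro 8).comp (kil 8)) _
    fun i => by
      rw [MonoidHom.comp_apply, kil, lift_apply_of]
      split_ifs with k
      · rw [map_one, ← io_of, ro_io, k, Lick_big le_rfl]
      · rfl)
  have w1 : w = 1 := by
    have := congrArg (ro 8) e1
    rw [rk, map_mul, map_inv, ro_inc, ro_io, Lick_big (Nat.le_succ 8), mul_one] at this
    exact hβ.1 ((inv_eq_one.1 (this.symm.trans h1)).trans (map_one β).symm)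
  have q1 : q.1 = 1 := MulEquiv.ext fun y => by
    have := congrArg (ro 8) (e2 y)
    rw [rk, ro_inc] at this
    exact this.symm.trans (h2 y)
  have e3 := congrArg Prod.fst e
  rw [w1, map_one, one_mul, Prod.fst_mul, Prod.pow_fst, show (exP 8 PUnit q).1 = exA 8 q.1 from rfl,
    q1, map_one, mul_one] at e3
  obtain ⟨a, b⟩ := agR_ok (n := 10) (p := (Tl4 ++ C5.new).getD 11 ([], []))
    (f := fun x => if x = 9 then [(9, true), (8, true)] else [(x, true)])
    (by decide +kernel) (by decide +kernel)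
  have t : ∀ x, aut 10 ((Tl4 ++ C5.new).getD 11 ([], [])) (emb 8 x) = emb 8 x :=
    DFunLike.congr_fun (ext_hom (MonoidHom.comp (MulEquiv.toMonoidHom _) (emb 8)) _ fun i => by
      change aut 10 _ (emb 8 _) = _
      rw [← io_of]
      obtain j | j : (i : ℕ) < 8 ∨ (i : ℕ) = 8 := by omega
      · rw [emb_io j, b _ (if_neg (by omega))]
      · rw [j, emb_e, map_mul, map_mul, map_inv, a 9 (by omega), b 8 (if_neg (by omega)),
          if_pos rfl, Raw_cons, Raw_pos, cond_true]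
        group)
  refine MulEquiv.ext fun x => emb_inj ((emb_res φ x).trans ?_)
  rw [show φ.1 = _ from e3]
  exact zpow_mem (K := MulAction.stabilizer (MulAut (FN 10)) (emb 8 x)) (t x) k

/-- The pushes of the foot. -/
def PPf (h : ℕ) : Subgroup (Gam (h + 1)) :=
  Subgroup.normalClosure {p | ∃ A C, IsA _ h A ∧ IsC _ h C ∧ p.1 = C * A⁻¹}

theorem wr42 (hb : BaseA) (hc : ∀ (χ : Gam 4 →* Multiplicative ℂ) x, χ x = 1) :
    RA (Gam 4) (PPf 3) := by
  have := cj_index _ (ft_onto (h := 3))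
  have i : ∀ g : Cj (ev 8 (rW 4)), ∀ p ∈ Inn (ev 8 (rW 4)), g * p * g⁻¹ ∈ Inn (ev 8 (rW 4)) := by
    rintro g p ⟨w, e⟩
    refine ⟨g.1 w, MulEquiv.ext fun y => ?_⟩
    change g.1 (p.1 (g.1⁻¹ y)) = _
    simp only [e, MulAut.conj_apply, map_mul, map_inv, MulAut.apply_inv_self]
  refine (RA.pull (ft 4) (fun c m g => Subgroup.mem_center_iff.1 (ft_ker (by omega) nf4 m) g)
    (fun c _ χ => hc χ c) hb i).mono ?_
  let K : Subgroup (Gam 4) := MulAut.conj.range.comap ((Cj _).subtype.comp (ft 4))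
  have : K.Normal := ⟨fun p ⟨w, e⟩ g => by
    obtain ⟨v, e'⟩ := i (ft 4 g) (ft 4 p) ⟨w, e.symm⟩
    exact ⟨v, by rw [← e', ← map_inv, ← map_mul, ← map_mul]; rfl⟩⟩
  intro p m
  obtain ⟨w, e⟩ := Subgroup.normalClosure_le_normal (N := K)
    (fun p hp => hp.elim fun _ hp => hp.elim fun _ ⟨hA, hC, e⟩ =>
      MonoidHom.mem_range.2 ⟨_, (ft_push hA hC e).symm⟩) m
  exact ⟨w, e.symm⟩

end Pool.Agent.MT
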